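import Pool.Agent.Helper19.HV.XS

/-!
# Project HV (MP_bae8ce_ag), module Z1: translation to the forms E
-/

set_option autoImplicit false

namespace Pool.Agent.Helper19.HV

noncomputable section

open PL

private theorem z1_e {F : Type} [Field F] {a b : F} (hab : a ≠ b) (c : F) :
    e ((RatFunc.X - RatFunc.C a) / RatFunc.C (b - a)) c =
      E (a + c * (b - a)) - lg (RatFunc.C (b - a)) := by
  have h1 : (RatFunc.C (b - a) : RatFunc F) ≠ 0 := C_ne (sub_ne_zero.2 (Ne.symm hab))
  have h2 : ((RatFunc.X - RatFunc.C a) / RatFunc.C (b - a) - RatFunc.C c : RatFunc F) =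
      (RatFunc.X - RatFunc.C (a + c * (b - a))) / RatFunc.C (b - a) := by
    rw [div_sub' h1, map_add, map_mul]
    congr 1
    ring
  unfold e E
  rw [h2, lg_div' (X_sub_ne _) h1]

/-- Z1. -/
theorem mZ1 {F : Type} [Field F] {φ : F4 F} (hφ : Frm φ) {a b : F} (hab : a ≠ b)
    (h : FT5 (Df φ ((RatFunc.X - RatFunc.C a) / RatFunc.C (b - a)))) :
    FT5 fun c : F => φ (E (a + c * (b - a))) (E a) (E a) (E b) := by
  have c2 : ∀ (c : F) (w u v : V (RatFunc F)), φ w u (lg (RatFunc.C c)) v = 0 := by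
    intro c w u v
    rw [hφ.s12, hφ.c1]
  have c3 : ∀ (c : F) (w u v : V (RatFunc F)), φ w u v (lg (RatFunc.C c)) = 0 := by
    intro c w u v
    rw [hφ.s23, c2]
  have hfun : Df φ ((RatFunc.X - RatFunc.C a) / RatFunc.C (b - a)) =
      fun c : F => φ (E (a + c * (b - a))) (E a) (E a) (E b) := by
    funext c
    unfold Df
    rw [z1_e hab, z1_e hab, z1_e hab]
    have e0 : a + 0 * (b - a) = a := by ring
    have e1 : a + 1 * (b - a) = b := by ring
    rw [e0, e1]
    have k0 := fun u v w => hφ.c0 (b - a) u v w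
    have k1 := fun u v w => hφ.c1 (b - a) u v w
    have k2 := fun u v w => c2 (b - a) u v w
    have k3 := fun u v w => c3 (b - a) u v w
    generalize lg (RatFunc.C (b - a)) = k at k0 k1 k2 k3 ⊢
    simp only [map_sub, LinearMap.sub_apply, k0, k1, k2, k3, sub_zero]
  rw [← hfun]
  exact h

end

end Pool.Agent.Helper19.HV
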