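import Pool.Agent.Helper19.HV.Curve
import Pool.Agent.Helper91.PL.A2

/-!
# Project HV (MP_bae8ce_ag), module VL5: the five-term relation specialises
-/

set_option autoImplicit false

open Polynomial

namespace Pool.Agent.Helper19.HV

noncomputable section

open PL

private theorem vl5_one {F : Type} [Field F] (a : F) :
    val a (some (1 : RatFunc F)) = some 1 := by
  have := val_C a (1 : F)
  rwa [map_one] at this

private theorem vl5_zero {F : Type} [Field F] (a : F) :
    val a (some (0 : RatFunc F)) = some 0 := by
  have := val_C a (0 : F)
  rwa [map_zero] at this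

private theorem vl5_sub {F : Type} [Field F] {a : F} {f g : RatFunc F} {x y : F}
    (hf : val a (some f) = some x) (hg : val a (some g) = some y) :
    val a (some (f - g)) = some (x - y) := by
  have h1 := val_mul (val_C a (-1 : F)) hg
  have h2 := val_add hf h1
  have e : f - g = f + RatFunc.C (-1 : F) * g := by
    rw [map_neg, map_one]; ring
  rw [e, h2]
  congr 1
  ring

private theorem vl5_div {F : Type} [Field F] {a : F} {f g : RatFunc F} {x y : F}
    (hf : val a (some f) = some x) (hg : val a (some g) = some y) (hy : y ≠ 0) :
    val a (some (f / g)) = some (x / y) := by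
  rw [div_eq_mul_inv, div_eq_mul_inv]
  exact val_mul hf (val_inv hg hy)

private theorem vl5_cases {F : Type} [Field F] (a : F) (f : RatFunc F) :
    val a (some f) = none ∨ ∃ u, val a (some f) = some u := by
  cases h : val a (some f) with
  | none => exact Or.inl rfl
  | some u => exact Or.inr ⟨u, rfl⟩

/-- finite minus pole is a pole -/
private theorem vl5_sub_none {F : Type} [Field F] {a : F} {f g : RatFunc F} {x : F}
    (hf : val a (some f) = some x) (hg : val a (some g) = none) :
    val a (some (f - g)) = none := by
  rcases vl5_cases a (f - g) with h | ⟨u, h⟩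
  · exact h
  · have h1 := vl5_sub hf h
    rw [sub_sub_cancel] at h1
    rw [h1] at hg
    exact absurd hg (by simp)

/-- pole minus finite is a pole -/
private theorem vl5_none_sub {F : Type} [Field F] {a : F} {f g : RatFunc F} {x : F}
    (hf : val a (some f) = none) (hg : val a (some g) = some x) :
    val a (some (f - g)) = none := by
  rcases vl5_cases a (f - g) with h | ⟨u, h⟩
  · exact h
  · have h1 := val_add h hg
    rw [sub_add_cancel] at h1
    rw [h1] at hf
    exact absurd hf (by simp)

/-- VL5.  The five-term relation specialises. -/
theorem mVL5 {F N : Type} [Field F] [AddCommGroup N] [Module ℚ N] (D : F → N) (h : FT5 D)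
    (a : F) : FT5 fun x : RatFunc F => ext0 D (val a (some x)) := by
  have h1 : D 1 = 0 := by
    have := h.one_sub 0
    rw [sub_zero, h.zero, neg_zero] at this
    exact this
  have hr : ∀ r : F, D (r / (r - 1)) = - D r := by
    intro r
    by_cases h0 : r = 0
    · rw [h0, zero_div, h.zero, neg_zero]
    · have e : r / (r - 1) = (1 - r⁻¹)⁻¹ := by
        rw [← inv_div]
        congr 1
        field_simp
      rw [e, h.inv, h.one_sub, h.inv, neg_neg]
  have hs : ∀ {f : RatFunc F} {u : F}, val a (some f) = some u →
      ext0 D (val a (some f)) = D u := fun e => by rw [e]; rfl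
  have hn : ∀ {f : RatFunc F}, val a (some f) = none →
      ext0 D (val a (some f)) = 0 := fun e => by rw [e]; rfl
  refine ⟨?_, ?_, ?_, ?_⟩
  · show ext0 D (val a (some 0)) = 0
    rw [hs (vl5_zero a), h.zero]
  · intro x
    show ext0 D (val a (some (1 - x))) = - ext0 D (val a (some x))
    rcases vl5_cases a x with hx | ⟨u, hx⟩
    · rw [hn hx, hn (vl5_sub_none (vl5_one a) hx), neg_zero]
    · rw [hs hx, hs (vl5_sub (vl5_one a) hx), h.one_sub]
  · intro x
    show ext0 D (val a (some x⁻¹)) = - ext0 D (val a (some x))
    rcases vl5_cases a x with hx | ⟨u, hx⟩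
    · rw [hn hx, hs (val_pole hx), h.zero, neg_zero]
    · by_cases hu : u = 0
      · subst hu
        rw [hs hx, h.zero, neg_zero]
        by_cases hx0 : x = 0
        · rw [hx0, inv_zero, hs (vl5_zero a), h.zero]
        · exact hn (val_eq_none (inv_ne_zero hx0) (by rwa [inv_inv]))
      · rw [hs hx, hs (val_inv hx hu), h.inv]
  · intro x y hx0 hx1 hy0 hy1 hxy
    show ext0 D (val a (some y)) + ext0 D (val a (some (x / y))) +
      ext0 D (val a (some ((y - x) / (y - 1)))) +
      ext0 D (val a (some (x * (y - 1) / (y - x)))) = ext0 D (val a (some x))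
    have hyx : y - x ≠ 0 := sub_ne_zero.2 (Ne.symm hxy)
    have hxy' : x - y ≠ 0 := sub_ne_zero.2 hxy
    have hy1' : y - 1 ≠ 0 := sub_ne_zero.2 hy1
    have h2ne : x / y ≠ 0 := div_ne_zero hx0 hy0
    have h3ne : (y - x) / (y - 1) ≠ 0 := div_ne_zero hyx hy1'
    have h4ne : x * (y - 1) / (y - x) ≠ 0 := div_ne_zero (mul_ne_zero hx0 hy1') hyx
    have i2 : (x / y)⁻¹ = y / x := inv_div _ _
    have i3 : ((y - x) / (y - 1))⁻¹ = (y - 1) / (y - x) := inv_div _ _
    have i4 : (x * (y - 1) / (y - x))⁻¹ = (y - x) / (x * (y - 1)) := inv_div _ _
    have h11 : val a (some (1 : RatFunc F)) = some 1 := vl5_one a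
    rcases vl5_cases a x with hx | ⟨u, hx⟩ <;> rcases vl5_cases a y with hy | ⟨v, hy⟩
    · -- both poles
      have hxi := val_pole hx
      have hyi := val_pole hy
      have a1 : val a (some (1 - y⁻¹)) = some (1 - 0) := vl5_sub h11 hyi
      have h1y : (1 : RatFunc F) - y⁻¹ ≠ 0 := by
        intro h0
        rw [h0, vl5_zero a] at a1
        have := Option.some.inj a1
        norm_num at this
      rw [hn hx, hn hy]
      rcases vl5_cases a (x / y) with hq | ⟨r, hq⟩
      · have hqi := val_pole hq
        rw [i2] at hqi
        have e3 : ((y - x) / (y - 1))⁻¹ = (1 - y⁻¹) * (1 - x / y)⁻¹ := by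
          rw [i3]
          field_simp
        have b1 : val a (some (1 - x / y)) = none := vl5_sub_none h11 hq
        have b2 := val_mul a1 (val_pole b1)
        rw [← e3, mul_zero] at b2
        have e4 : (x * (y - 1) / (y - x))⁻¹ = (y / x - 1) * (y - 1)⁻¹ := by
          rw [i4]
          field_simp
        have b3 := val_mul (vl5_sub hqi h11) (val_pole (vl5_none_sub hy h11))
        rw [← e4, mul_zero] at b3
        rw [hn hq, hn (val_eq_none h3ne b2), hn (val_eq_none h4ne b3)]
        simp
      · have e3 : (y - x) / (y - 1) = (1 - x / y) / (1 - y⁻¹) := by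
          field_simp
        have b2 := vl5_div (vl5_sub h11 hq) a1 (by norm_num)
        rw [← e3] at b2
        have e4 : (x * (y - 1) / (y - x))⁻¹ = x⁻¹ * ((1 - x / y) / (1 - y⁻¹)) := by
          rw [i4, ← e3]
          field_simp
        have b3 := val_mul hxi (vl5_div (vl5_sub h11 hq) a1 (by norm_num))
        rw [← e4, zero_mul] at b3
        rw [hs hq, hs b2, hn (val_eq_none h4ne b3)]
        rw [sub_zero, div_one, h.one_sub]
        simp
    · -- x pole, y finite
      have hxi := val_pole hx
      have c2 := val_mul hy hxi
      rw [← div_eq_mul_inv, ← i2, mul_zero] at c2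
      have c3 := val_mul (vl5_sub hy h11) (val_pole (vl5_sub_none hy hx))
      rw [← div_eq_mul_inv, ← i3, mul_zero] at c3
      have c4 : x * (y - 1) / (y - x) = (y - 1) / (y / x - 1) := by
        field_simp
      have c5 := vl5_div (vl5_sub hy h11) (vl5_sub (val_mul hy hxi) h11)
        (by rw [mul_zero]; norm_num)
      rw [← div_eq_mul_inv, ← c4, mul_zero] at c5
      rw [hn hx, hs hy, hn (val_eq_none h2ne c2), hn (val_eq_none h3ne c3), hs c5]
      have e : (v - 1) / (0 - 1) = 1 - v := by
        rw [zero_sub, div_neg, div_one, neg_sub]
      rw [e, h.one_sub]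
      simp
    · -- y pole, x finite
      have hyi := val_pole hy
      have c2 := val_mul hx hyi
      rw [← div_eq_mul_inv, mul_zero] at c2
      have a1 : val a (some (1 - y⁻¹)) = some (1 - 0) := vl5_sub h11 hyi
      have a2 := vl5_sub h11 c2
      have e3 : (y - x) / (y - 1) = (1 - x / y) / (1 - y⁻¹) := by
        field_simp
      have c3 := vl5_div a2 a1 (by norm_num)
      rw [← e3] at c3
      have e4 : x * (y - 1) / (y - x) = x * ((1 - y⁻¹) / (1 - x / y)) := by
        rw [← inv_div (1 - x / y) (1 - y⁻¹), ← e3, i3]
        field_simp
      have c4 := val_mul hx (vl5_div a1 a2 (by norm_num))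
      rw [← e4] at c4
      rw [hs hx, hn hy, hs c2, hs c3, hs c4, h.zero]
      norm_num
      exact h1
    · -- both finite
      by_cases huv : u = v
      · subst huv
        by_cases hu0 : u = 0
        · subst hu0
          have c3 := vl5_div (vl5_sub hy hx) (vl5_sub hy h11) (by norm_num)
          rw [hs hx, hs hy, hs c3, h.zero]
          rcases vl5_cases a (x / y) with hq | ⟨r, hq⟩
          · have hqi := val_pole hq
            rw [i2] at hqi
            have c4 : x * (y - 1) / (y - x) = (y - 1) / (y / x - 1) := by
              field_simp
            have c5 := vl5_div (vl5_sub hy h11) (vl5_sub hqi h11) (by norm_num)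
            rw [← c4] at c5
            rw [hn hq, hs c5]
            norm_num
            rw [h.zero, h1]
            simp
          · by_cases hr1 : r = 1
            · subst hr1
              have c4 : (x * (y - 1) / (y - x))⁻¹ = (1 - x / y) / ((x / y) * (y - 1)) := by
                rw [i4]
                field_simp
              have c5 := vl5_div (vl5_sub h11 hq) (val_mul hq (vl5_sub hy h11)) (by norm_num)
              rw [← c4, sub_self, zero_div] at c5
              rw [hs hq, hn (val_eq_none h4ne c5)]
              norm_num
              rw [h.zero, h1]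
              simp
            · have c4 : x * (y - 1) / (y - x) = ((x / y) * (y - 1)) / (1 - x / y) := by
                field_simp
              have hr1' : (1 : F) - r ≠ 0 := sub_ne_zero.2 (Ne.symm hr1)
              have c5 := vl5_div (val_mul hq (vl5_sub hy h11)) (vl5_sub h11 hq) hr1'
              rw [← c4] at c5
              rw [hs hq, hs c5]
              have e : r * (0 - 1) / (1 - r) = r / (r - 1) := by
                rw [zero_sub, mul_neg, mul_one, ← neg_sub r 1, neg_div_neg_eq]
              rw [e, hr]
              norm_num
              rw [h.zero]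
        · by_cases hu1 : u = 1
          · subst hu1
            have c2 := vl5_div hx hy one_ne_zero
            rw [hs hx, hs hy, hs c2]
            have e4 : x * (y - 1) / (y - x) = x * ((y - x) / (y - 1))⁻¹ := by
              rw [i3, mul_div_assoc]
            rcases vl5_cases a ((y - x) / (y - 1)) with hq | ⟨r, hq⟩
            · have c4 := val_mul hx (val_pole hq)
              rw [← e4, mul_zero] at c4
              rw [hn hq, hs c4, h.zero, div_one, h1]
              simp
            · by_cases hr0 : r = 0
              · subst hr0
                have c4 : (x * (y - 1) / (y - x))⁻¹ = ((y - x) / (y - 1)) / x := by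
                  rw [i4]
                  field_simp
                have c5 := vl5_div hq hx one_ne_zero
                rw [← c4, zero_div] at c5
                rw [hs hq, hn (val_eq_none h4ne c5), h.zero, div_one, h1]
                simp
              · have c4 := val_mul hx (val_inv hq hr0)
                rw [← e4, one_mul] at c4
                rw [hs hq, hs c4, h.inv, div_one, h1]
                simp
          · have hu1' : u - 1 ≠ 0 := sub_ne_zero.2 hu1
            have c2 := vl5_div hx hy hu0
            have c3 := vl5_div (vl5_sub hy hx) (vl5_sub hy h11) hu1'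
            have c4 := vl5_div (vl5_sub hy hx) (val_mul hx (vl5_sub hy h11))
              (mul_ne_zero hu0 hu1')
            rw [← i4, sub_self, zero_div] at c4
            rw [hs hx, hs hy, hs c2, hs c3, hn (val_eq_none h4ne c4), sub_self, zero_div,
              div_self hu0, h.zero, h1]
            simp
      · have hvu : v - u ≠ 0 := sub_ne_zero.2 (Ne.symm huv)
        have c4 := vl5_div (val_mul hx (vl5_sub hy h11)) (vl5_sub hy hx) hvu
        by_cases hv0 : v = 0
        · subst hv0
          have hu0 : u ≠ 0 := huv
          have c2 := vl5_div hy hx hu0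
          rw [← i2, zero_div] at c2
          have c3 := vl5_div (vl5_sub hy hx) (vl5_sub hy h11) (by norm_num)
          rw [hs hx, hs hy, hn (val_eq_none h2ne c2), hs c3, hs c4, h.zero]
          have e1 : ((0 : F) - u) / (0 - 1) = u := by
            rw [zero_sub, zero_sub, neg_div_neg_eq, div_one]
          have e2 : u * ((0 : F) - 1) / (0 - u) = 1 := by
            rw [zero_sub, zero_sub, mul_neg, mul_one, div_self (neg_ne_zero.2 hu0)]
          rw [e1, e2, h1]
          simp
        · by_cases hv1 : v = 1
          · subst hv1
            have c2 := vl5_div hx hy one_ne_zero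
            have c3 := vl5_div (vl5_sub hy h11) (vl5_sub hy hx) hvu
            rw [← i3, sub_self, zero_div] at c3
            rw [hs hx, hs hy, hs c2, hn (val_eq_none h3ne c3), hs c4, sub_self, mul_zero,
              zero_div, div_one, h.zero, h1]
            simp
          · have hv1' : v - 1 ≠ 0 := sub_ne_zero.2 hv1
            have c2 := vl5_div hx hy hv0
            have c3 := vl5_div (vl5_sub hy hx) (vl5_sub hy h11) hv1'
            rw [hs hx, hs hy, hs c2, hs c3, hs c4]
            by_cases hu0 : u = 0
            · subst hu0
              rw [sub_zero, zero_mul, zero_div, hr, h.zero]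
              simp
            · by_cases hu1 : u = 1
              · subst hu1
                rw [one_mul, div_self hv1', one_div, h.inv, h1]
                simp
              · exact h.five u v hu0 hu1 hv0 hv1 huv

end

end Pool.Agent.Helper19.HV
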